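import Pool.Agent.helper82.T5.SpecS

set_option autoImplicit false

namespace Pool.Agent.T5

open Finset NumberField Pool.Agent.helper3.FT Pool.Agent.helper47.RA

theorem SUD (hSUC : ∀ δ : ℝ, SUC_stmt δ) (hSTA : STA_stmt) : ∀ δ : ℝ, SUD_stmt δ := by
  intro δ hδ hδ1 hALG hBT κ hκ
  obtain ⟨C, N₀, hC, hmain⟩ := hSUC δ hδ hδ1 hALG hBT κ hκ
  refine ⟨6 * C, by linarith, fun w hw ε hε => ?_⟩
  have hlim : Filter.Tendsto (fun N : ℝ => 2 * N ^ (-(δ / 8))) Filter.atTop (nhds (2 * 0)) :=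
    (tendsto_rpow_neg_atTop (by positivity)).const_mul 2
  rw [mul_zero] at hlim
  obtain ⟨N₁, hN₁⟩ := Filter.eventually_atTop.1 (hlim.eventually (gt_mem_nhds hε))
  refine ⟨max (max N₀ N₁) 1, fun N Y hN hY hY' => ?_⟩
  have hN0 : N₀ ≤ N := ((le_max_left _ _).trans (le_max_left _ _)).trans hN
  have hN1 : N₁ ≤ N := ((le_max_right _ _).trans (le_max_left _ _)).trans hN
  have h1 : 1 ≤ N := (le_max_right _ _).trans hN
  have hNpos : 0 < N := by linarith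
  have hYp : 0 ≤ Y := (Real.rpow_nonneg hNpos.le _).trans hY
  have hP : 0 ≤ Y * N ^ (1 / 2 + δ / 100) := mul_nonneg hYp (Real.rpow_nonneg hNpos.le _)
  have hexp : δ / 100 / 100 = δ / 10000 := by ring
  have hg : ∀ g ∈ gR w N (δ / 100), 3 ≤ g ∧ Odd g ∧ (g : ℝ) ≤ N ^ (δ / 10000) ∧ w < g := by
    intro g hg
    unfold gR at hg
    rw [Finset.mem_filter, Finset.mem_range, hexp] at hg
    obtain ⟨h2, h3, h4⟩ := hg
    refine ⟨by omega, h3, ?_, h4⟩
    have h5 : g ≤ ⌊N ^ (δ / 10000)⌋₊ := by omega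
    exact (Nat.cast_le.2 h5).trans (Nat.floor_le (Real.rpow_nonneg hNpos.le _))
  have hcard : ((gR w N (δ / 100)).card : ℝ) * N ^ (-(δ / 4)) ≤ ε := by
    have h2 : (gR w N (δ / 100)).card ≤ ⌊N ^ (δ / 10000)⌋₊ + 1 := by
      unfold gR
      rw [hexp]
      exact (Finset.card_filter_le _ _).trans (by rw [Finset.card_range])
    have h3 : ((gR w N (δ / 100)).card : ℝ) ≤ 2 * N ^ (δ / 8) := by
      have h4 : ((gR w N (δ / 100)).card : ℝ) ≤ (⌊N ^ (δ / 10000)⌋₊ : ℝ) + 1 := by exact_mod_cast h2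
      have h5 := Nat.floor_le (Real.rpow_nonneg hNpos.le (δ / 10000))
      have h6 : N ^ (δ / 10000) ≤ N ^ (δ / 8) := Real.rpow_le_rpow_of_exponent_le h1 (by linarith)
      have h7 : 1 ≤ N ^ (δ / 8) := Real.one_le_rpow h1 (by positivity)
      linarith
    have h4 : 2 * N ^ (δ / 8) * N ^ (-(δ / 4)) = 2 * N ^ (-(δ / 8)) := by
      rw [mul_assoc, ← Real.rpow_add hNpos]
      ring_nf
    calc ((gR w N (δ / 100)).card : ℝ) * N ^ (-(δ / 4)) ≤ 2 * N ^ (δ / 8) * N ^ (-(δ / 4)) :=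
          mul_le_mul_of_nonneg_right h3 (Real.rpow_nonneg hNpos.le _)
      _ = 2 * N ^ (-(δ / 8)) := h4
      _ ≤ ε := (hN₁ N hN1).le
  have hsum := (hSTA w (gR w N (δ / 100)) (by omega) (fun g hg' => (hg g hg').2.2.2)).1
  calc ∑ g ∈ gR w N (δ / 100), ∑ D ∈ DN N, SF (fun _ E => ((GB E.Q κ N Y (δ / 100) g).ncard : ℝ)) D
      ≤ ∑ g ∈ gR w N (δ / 100), (C * g.divisors.card / (g : ℝ) ^ 2 + N ^ (-(δ / 4))) *
          (Y * N ^ (1 / 2 + δ / 100)) := by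
        refine Finset.sum_le_sum fun g hg' => ?_
        obtain ⟨h2, h3, h4, -⟩ := hg g hg'
        exact hmain N Y hN0 hY hY' g h2 h3 h4
    _ = (C * (∑ g ∈ gR w N (δ / 100), (g.divisors.card : ℝ) / (g : ℝ) ^ 2) +
          ((gR w N (δ / 100)).card : ℝ) * N ^ (-(δ / 4))) * (Y * N ^ (1 / 2 + δ / 100)) := by
        rw [← Finset.sum_mul, Finset.sum_add_distrib, Finset.sum_const, nsmul_eq_mul, Finset.mul_sum]
        simp only [mul_div_assoc]
    _ ≤ (C * (6 / √(w : ℝ)) + ε) * (Y * N ^ (1 / 2 + δ / 100)) := by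
        refine mul_le_mul_of_nonneg_right (add_le_add ?_ hcard) hP
        exact mul_le_mul_of_nonneg_left hsum (by linarith)
    _ = (6 * C / √(w : ℝ) + ε) * (Y * N ^ (1 / 2 + δ / 100)) := by ring

end Pool.Agent.T5
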